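import Pool.Agent.H554V.Final2
import Pool.Agent.H554V.PosetP

/-!
# ZFC does not prove that ultrapowers of `P(ω)` contain all partial orders of size continuum

Part 1 (in ZFC): the combinatorial statement `Phi2 B ev` implies that there are a nonprincipal
ultrafilter `U` on `ω` and a partial order of the cardinality of the continuum which has no order
embedding into the ultrapower of `(P(ω), ⊆)` by `U` (the germs of functions `ω → P(ω)`).
Part 2: for suitable ground model objects `B`, `ev` the statement `Phi2 B ev` holds in the extension
by some forcing notion.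
-/

namespace Pool.Agent.Results.MP_6b029b_lc.NotUniversal

open Pool.Agent.H554V Pool.Agent.Helper669.Forcing

/-- It is consistent that some ultrapower of `P(ω)` is not universal for the partial orders of the
size of the continuum: a hypothesis implying this (first part) is forced (second part). -/
theorem result :
    (∀ (R K : Type) (B : R → Set ℕ) (ev : K → List ℕ → ℕ), Phi2 B ev →
      ∃ (U : Ultrafilter ℕ) (X : Type) (_ : PartialOrder X), (∀ n, {n} ∉ U) ∧
        Cardinal.mk X = Cardinal.continuum ∧
        ¬ ∃ f : X → Filter.Germ (U : Filter ℕ) (Set ℕ), ∀ x y, x ≤ y ↔ f x ≤ f y) ∧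
    ∃ (R K : Type) (B : R → Set ℕ) (ev : K → List ℕ → ℕ) (P : Type) (_ : Preorder P),
      Nonempty P ∧ ∀ p : P, p ∈ ForcedPhi2 P B ev :=
  ⟨main_poset, main_forced2⟩

end Pool.Agent.Results.MP_6b029b_lc.NotUniversal
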